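import Mathlib
import Pool.Agent.R761.PosId.Step
import Pool.Agent.R761.PosId.SemN
import Pool.Agent.R761.PosId.Trans
import Pool.Agent.R761.PosId.Merge
import Pool.Agent.R761.PosId.Norm
import Pool.Agent.R761.PosId.IndU

/-!
# MP_88c4e5_co: no lattice identity for fixed dimension `d ≥ 4`

For every `d ≥ 4`, every nontrivial lattice identity fails in the Dedekind-MacNeille completion of
the poset of regions of some central hyperplane arrangement in `ℝ^d`, for some base region.
-/

namespace Pool.Agent.Results.MP_88c4e5_co.FixedDimension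

open R761.PosId R761.BipLat Pool.Agent.H178R3 Pool.Agent.H178R3.CentralArrangement

universe u

theorem result (d : ℕ) (hd : 4 ≤ d) (s t : LTerm)
    (hnontrivial : ∃ (L : Type u) (_ : Lattice L) (v : ℕ → L), s.eval v ≠ t.eval v) :
    ∃ (A : CentralArrangement d) (B : A.Region) (v : ℕ → DedekindCut (Pos A B)),
      s.eval v ≠ t.eval v := by
  obtain ⟨n, rfl⟩ : ∃ n, d = n + 4 := ⟨d - 4, by omega⟩
  obtain ⟨L, iL, v, hv⟩ := hnontrivial
  have key : ∀ s t : LTerm, ¬ s.eval v ≤ t.eval v →
      ∃ (A : CentralArrangement (n + 4)) (B : A.Region) (v : ℕ → DedekindCut (Pos A B)),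
        ¬ s.eval v ≤ t.eval v := by
    intro s t h
    obtain ⟨S⟩ := indU (step trans merge (norm trans)) L v s t h
    exact semN n S.P S.Fs s t S.q S.gen (S.dvb S.q S.hq S.qb) (S.dvc S.q S.hq S.qc)
  by_cases h : s.eval v ≤ t.eval v
  · obtain ⟨A, B, v', h'⟩ := key t s fun h' => hv (le_antisymm h h')
    exact ⟨A, B, v', fun e => h' e.ge⟩
  · obtain ⟨A, B, v', h'⟩ := key s t h
    exact ⟨A, B, v', fun e => h' e.le⟩

end Pool.Agent.Results.MP_88c4e5_co.FixedDimension
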